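import Pool.Agent.U279.GP.SphLD

/-!
# Hard spheres in high dimension: free energy and large deviations at every density

Hard spheres of radius `a` in `ℝ^d`; `V` is the volume of the ball of radius `2a`, `ρ` the density
and `y = ρ V / d`; the close packing density corresponds to a `y` which may be exponentially large
in `d`. Put `c = (1 - log 2) / 2` and `E(y) = y / 2` for `y ≤ c`, `E(y) = c - c^2 / (2 y)` for
`y ≥ c`.

(1), (2) For every `ε > 0`, all `d ≥ d₀(ε)`, all `a > 0` and all densities the free energy per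
particle is at least `log ρ - 1 + (E(y) - ε) d`. This holds for the partition functions of all
cubes of side at least `2a` (with `ρ = N / (L + 2a)^d`) and in the thermodynamic limit.

(3) In the grand canonical ensemble at the activity `s e^s / V`, `s = x d`, `s e^s ≤ e^((c - ε) d)`,
in large cubes with any boundary condition, the probability of exactly `k` spheres is at most
`exp (-(I(x, y) - ε (1 + y)) d^2 L^d / V)`, `y = k V / (d L^d)`, for every `k`, where
`I(x, y) = y E(y) - x y + x^2 / 2`. This is `(y - x)^2 / 2` for `y ≤ c`, and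
`(c - x) (y - (c + x) / 2)` for `y ≥ c`. So not only is the density near `x d / V`, but a region of
any other density (for example of a dense or crystalline phase of any density up to close packing)
has a free energy cost of the full order `d^2 / V` per volume, which grows at least linearly in the
density.

For `y < c` the bound (2) is sharp (starting result HighDimension of this problem: the free energy
is `log ρ - 1 + ρ V / 2` up to a small error). For larger densities, up to close packing, only the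
value `c d / 2` at the end of that range, by monotonicity of the excess free energy, was known.

Proof. The partition function of `N` spheres is estimated by the grand canonical one at the activity
`exp ((c - θ) d) y / V` (which depends on the density and may be far above the range of the equation
of state), and the sharp container recursion (with the Fourier transform of the ball) is used with
an error term of the order of the number of particles.
-/

open MeasureTheory Metric Filter Set
open scoped Topology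

namespace Pool.Agent.Results.MP_09cbbd_mp.FreeEnergyAllDensities

/-- The hard-sphere partition function of the cube of side `L`: `(1 / N!)` times the volume of the
configurations of `N` points of the cube with mutual distances at least `2a`. -/
noncomputable def boxZ (d : ℕ) (a L : ℝ) (N : ℕ) : ℝ :=
  ((N.factorial : ℝ))⁻¹ * (volume {x : Fin N → Fin d → ℝ |
    (∀ i k, x i k ∈ Set.Icc (0 : ℝ) L) ∧
    ∀ i j, i ≠ j → (2 * a) ^ 2 ≤ ∑ k, (x i k - x j k) ^ 2}).toReal

/-- `N_j` particles in cubes of side `L_j → ∞`, with density tending to `ρ`. -/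
def Thermodynamic (d : ℕ) (ρ : ℝ) (N : ℕ → ℕ) (L : ℕ → ℝ) : Prop :=
  Tendsto L atTop atTop ∧ Tendsto (fun j => (N j : ℝ) / L j ^ d) atTop (𝓝 ρ)

/-- The volume `V` of the ball of radius `2a` (the excluded volume of a sphere of radius `a`). -/
noncomputable def exclVol (d : ℕ) (a : ℝ) : ℝ :=
  volume.real (ball (0 : EuclideanSpace ℝ (Fin d)) (2 * a))

/-- The constant `c = (1 - log 2) / 2`. -/
noncomputable def c : ℝ := (1 - Real.log 2) / 2

/-- The exponent `E(y)`. -/
noncomputable def E (y : ℝ) : ℝ := if y ≤ c then y / 2 else c - c ^ 2 / (2 * y)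

/-- The rate function `I(x, y)`. -/
noncomputable def I (x y : ℝ) : ℝ := y * E y - x * y + x ^ 2 / 2

/-- The grand canonical partition function of the region `R` at activity `lam`. -/
noncomputable def grandZ (d : ℕ) (a : ℝ) (R : Set (Fin d → ℝ)) (lam : ℝ) : ℝ :=
  ∑' k : ℕ, lam ^ k / k.factorial * (volume {x : Fin k → Fin d → ℝ | (∀ i, x i ∈ R) ∧
    ∀ i j, i ≠ j → (2 * a) ^ 2 ≤ ∑ m, (x i m - x j m) ^ 2}).toReal

/-- The probability of exactly `k` spheres in the region `R`, in the grand canonical ensemble at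
activity `lam`. -/
noncomputable def prob (d : ℕ) (a : ℝ) (R : Set (Fin d → ℝ)) (lam : ℝ) (k : ℕ) : ℝ :=
  lam ^ k / k.factorial * (volume {x : Fin k → Fin d → ℝ | (∀ i, x i ∈ R) ∧
    ∀ i j, i ≠ j → (2 * a) ^ 2 ≤ ∑ m, (x i m - x j m) ^ 2}).toReal / grandZ d a R lam

theorem E_eq (y : ℝ) : E y = Pool.Agent.U279.GP.ex Pool.Agent.U279.PR.y0 y := rfl

theorem exclVol_eq (d : ℕ) (a : ℝ) : exclVol d a = Pool.Agent.N549.HG.ballVol d (2 * a) := rfl

theorem boxZ_eq (d : ℕ) (a L : ℝ) (N : ℕ) :
    boxZ d a L N = (N.factorial : ℝ)⁻¹ * Pool.Agent.N549.HG.boxVol d (2 * a) L N := rfl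

theorem c_pos : 0 < c := Pool.Agent.U279.PR.y0_pos

/-- another formula -/
theorem E_min {y : ℝ} (hy : 0 < y) : E y = min y c - min y c ^ 2 / (2 * y) := by
  unfold E
  split_ifs with h
  · rw [min_eq_left h]
    field_simp
    ring
  · rw [min_eq_right (le_of_not_ge h)]

theorem E_cont {y : ℝ} (hy : 0 < y) : ContinuousAt E y := by
  have h1 : ContinuousAt (fun y => min y c - min y c ^ 2 / (2 * y)) y := by
    have h2 : ContinuousAt (fun y => min y c) y := (continuous_id.min continuous_const).continuousAt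
    exact h2.sub ((h2.pow 2).div (continuousAt_const.mul continuousAt_id) (by positivity))
  refine h1.congr ?_
  filter_upwards [lt_mem_nhds hy] with z hz
  exact (E_min hz).symm

/-- The bound in finite volume. -/
theorem finite_volume : ∀ ε : ℝ, 0 < ε → ∃ d₀ : ℕ, ∀ d : ℕ, d₀ ≤ d → ∀ a : ℝ, 0 < a →
    ∀ (L : ℝ) (N : ℕ), 2 * a ≤ L → 1 ≤ N →
      boxZ d a L N ≤ Real.exp (-(N * (Real.log (N / (L + 2 * a) ^ d) - 1 +
        (E (N / (L + 2 * a) ^ d * exclVol d a / d) - ε) * d))) := by
  intro ε hε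
  obtain ⟨n₀, H⟩ := Pool.Agent.U279.GP.conf_ev hε
  refine ⟨max n₀ 1, fun d hd a ha L N hL hN => ?_⟩
  have hd1 : 1 ≤ d := (le_max_right _ _).trans hd
  have hd0 : (0 : ℝ) < d := by exact_mod_cast hd1
  have hN0 : (0 : ℝ) < N := by exact_mod_cast hN
  have hL0 : 0 < L := by linarith
  have hLb : 0 < L + 2 * a := by linarith
  obtain ⟨-, f2⟩ := Pool.Agent.N97.HG.free d N (2 * a) L hd1 (by positivity) hL0
  have hr : 0 < 2 * a / (L + 2 * a) := by positivity
  have hr2 : 2 * a / (L + 2 * a) ≤ 1 / 2 := by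
    rw [div_le_iff₀ hLb]
    linarith
  have hconf := H d ((le_max_left _ _).trans hd) _ hr hr2 N
    (N / (L + 2 * a) ^ d * exclVol d a / d) (by
      rw [Pool.Agent.N549.HG.ballVol_div d hLb, exclVol_eq]
      field_simp)
  rw [← E_eq] at hconf
  have u2 := Pool.Agent.N424.HG.log_fact_low N hN
  have hf0 : (0 : ℝ) < N.factorial := by exact_mod_cast Nat.factorial_pos N
  have h1 : (N.factorial : ℝ)⁻¹ ≤ Real.exp (-(N * Real.log N - N)) := by
    rw [Real.exp_neg]
    refine inv_anti₀ (Real.exp_pos _) ?_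
    rw [← Real.le_log_iff_exp_le hf0]
    exact u2
  have h2 : (L + 2 * a) ^ (d * N) = Real.exp (d * N * Real.log (L + 2 * a)) := by
    have : ((d : ℝ) * N) = ((d * N : ℕ) : ℝ) := by push_cast; ring
    rw [this, Real.exp_nat_mul, Real.exp_log hLb]
  rw [boxZ_eq]
  calc (N.factorial : ℝ)⁻¹ * Pool.Agent.N549.HG.boxVol d (2 * a) L N ≤
        Real.exp (-(N * Real.log N - N)) * (Real.exp (d * N * Real.log (L + 2 * a)) *
          Real.exp (-((E (N / (L + 2 * a) ^ d * exclVol d a / d) - ε) * d * N))) := by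
        refine mul_le_mul h1 (f2.trans ?_) ENNReal.toReal_nonneg (Real.exp_pos _).le
        rw [h2]
        exact mul_le_mul_of_nonneg_left hconf (Real.exp_pos _).le
    _ = _ := by
        rw [← Real.exp_add, ← Real.exp_add, Real.log_div hN0.ne' (by positivity), Real.log_pow]
        congr 1
        ring

theorem free_energy : ∀ ε : ℝ, 0 < ε → ∃ d₀ : ℕ, ∀ d : ℕ, d₀ ≤ d → ∀ a : ℝ, 0 < a →
    -- (1) finite volume
    (∀ (L : ℝ) (N : ℕ), 2 * a ≤ L → 1 ≤ N →
      boxZ d a L N ≤ Real.exp (-(N * (Real.log (N / (L + 2 * a) ^ d) - 1 +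
        (E (N / (L + 2 * a) ^ d * exclVol d a / d) - ε) * d)))) ∧
    -- (2) the thermodynamic limit
    ∀ ρ : ℝ, 0 < ρ → ∀ (N : ℕ → ℕ) (L : ℕ → ℝ), Thermodynamic d ρ N L →
      (∀ᶠ j in atTop, boxZ d a (L j) (N j) ≤
        Real.exp (-(N j * (Real.log ρ - 1 + (E (ρ * exclVol d a / d) - ε) * d)))) ∧
      ∀ f : ℝ, (∀ᶠ j in atTop, 0 < boxZ d a (L j) (N j)) →
        Tendsto (fun j => -(Real.log (boxZ d a (L j) (N j))) / N j) atTop (𝓝 f) →
        Real.log ρ - 1 + (E (ρ * exclVol d a / d) - ε) * d ≤ f := by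
  intro ε hε
  obtain ⟨d₀, H⟩ := finite_volume (ε / 2) (half_pos hε)
  refine ⟨max d₀ 1, fun d hd a ha => ?_⟩
  have hd1 : 1 ≤ d := (le_max_right _ _).trans hd
  have hd0 : (0 : ℝ) < d := by exact_mod_cast hd1
  have H := H d ((le_max_left _ _).trans hd) a ha
  refine ⟨fun L N hL hN => (H L N hL hN).trans ?_, fun ρ hρ N L hT => ?_⟩
  · rw [Real.exp_le_exp]
    refine neg_le_neg (mul_le_mul_of_nonneg_left ?_ (Nat.cast_nonneg N))
    have : (E (N / (L + 2 * a) ^ d * exclVol d a / d) - ε) * d ≤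
        (E (N / (L + 2 * a) ^ d * exclVol d a / d) - ε / 2) * d :=
      mul_le_mul_of_nonneg_right (by linarith) hd0.le
    linarith
  have hV : 0 < exclVol d a := Pool.Agent.N549.HG.ballVol_pos (by positivity)
  have hlim : Tendsto (fun j => (N j : ℝ) / (L j + 2 * a) ^ d) atTop (𝓝 ρ) := by
    have h1 : Tendsto (fun j => (L j / (L j + 2 * a)) ^ d) atTop (𝓝 (1 ^ d)) := by
      refine Tendsto.pow ?_ d
      have h2 : Tendsto (fun j => 1 - 2 * a / (L j + 2 * a)) atTop (𝓝 (1 - 0)) := by
        refine tendsto_const_nhds.sub ?_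
        exact tendsto_const_nhds.div_atTop (tendsto_atTop_add_const_right _ _ hT.1)
      rw [sub_zero] at h2
      refine h2.congr' ?_
      filter_upwards [hT.1.eventually_gt_atTop 0] with j hj
      have : L j + 2 * a ≠ 0 := by positivity
      field_simp
      ring
    rw [one_pow] at h1
    have h3 := hT.2.mul h1
    rw [mul_one] at h3
    refine h3.congr' ?_
    filter_upwards [hT.1.eventually_gt_atTop 0] with j hj
    have : L j + 2 * a ≠ 0 := by positivity
    rw [div_pow]
    field_simp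
  have hN1 : ∀ᶠ j in atTop, 1 ≤ N j := by
    filter_upwards [hT.2.eventually (lt_mem_nhds hρ)] with j hj
    by_contra hcon
    have : N j = 0 := by omega
    rw [this] at hj
    simp at hj
  have hG : ContinuousAt (fun t : ℝ => Real.log t - 1 + (E (t * exclVol d a / d) - ε / 2) * d) ρ := by
    have h1 : ContinuousAt (fun t : ℝ => E (t * exclVol d a / d)) ρ := by
      have h2 : ContinuousAt (fun t : ℝ => t * exclVol d a / d) ρ := by fun_prop
      exact ContinuousAt.comp (g := E) (f := fun t : ℝ => t * exclVol d a / d)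
        (E_cont (by positivity)) h2
    exact ((Real.continuousAt_log hρ.ne').sub continuousAt_const).add
      ((h1.sub continuousAt_const).mul continuousAt_const)
  have hG2 := hG.tendsto.comp hlim
  have hlt : Real.log ρ - 1 + (E (ρ * exclVol d a / d) - ε) * d <
      Real.log ρ - 1 + (E (ρ * exclVol d a / d) - ε / 2) * d := by
    have : (E (ρ * exclVol d a / d) - ε) * d < (E (ρ * exclVol d a / d) - ε / 2) * d :=
      mul_lt_mul_of_pos_right (by linarith) hd0
    linarith
  have hev : ∀ᶠ j in atTop, boxZ d a (L j) (N j) ≤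
      Real.exp (-(N j * (Real.log ρ - 1 + (E (ρ * exclVol d a / d) - ε) * d))) := by
    filter_upwards [hG2.eventually (lt_mem_nhds hlt), hN1, hT.1.eventually_ge_atTop (2 * a)]
      with j hj hj1 hj2
    refine (H (L j) (N j) hj2 hj1).trans ?_
    rw [Real.exp_le_exp]
    exact neg_le_neg (mul_le_mul_of_nonneg_left hj.le (Nat.cast_nonneg _))
  refine ⟨hev, fun f hpos hf => ge_of_tendsto hf ?_⟩
  filter_upwards [hev, hpos, hN1] with j h1 h2 h3
  have hN0 : (0 : ℝ) < N j := by exact_mod_cast h3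
  rw [le_div_iff₀ hN0, ← neg_le_neg_iff, neg_neg]
  have h4 := Real.log_le_log h2 h1
  rw [Real.log_exp] at h4
  linarith

/-- Large deviations of the number of spheres. -/
theorem large_deviations : ∀ ε : ℝ, 0 < ε → ∃ d₀ : ℕ, ∀ d : ℕ, d₀ ≤ d → ∀ a : ℝ, 0 < a →
    ∃ L₀ : ℝ, ∀ L : ℝ, L₀ ≤ L → ∀ R : Set (Fin d → ℝ), MeasurableSet R →
    (∀ x, (∀ m, x m ∈ Icc (2 * a) (L - 2 * a)) → x ∈ R) →
    (∀ x ∈ R, ∀ m, x m ∈ Icc (0 : ℝ) L) →
    ∀ s : ℝ, 0 < s → s * Real.exp s ≤ Real.exp ((c - ε) * d) → ∀ k : ℕ, 1 ≤ k →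
      prob d a R (s * Real.exp s / exclVol d a) k ≤
        Real.exp (-((I (s / d) (k * exclVol d a / (L ^ d * d)) -
          ε * (1 + k * exclVol d a / (L ^ d * d))) * (d ^ 2 * L ^ d / exclVol d a))) := by
  intro ε hε
  obtain ⟨d₀, H⟩ := Pool.Agent.U279.GP.ld_ev hε
  refine ⟨d₀, fun d hd a ha => ?_⟩
  obtain ⟨L₀, H⟩ := H d hd (2 * a) (by positivity)
  exact ⟨L₀, fun L hL R hR hR1 hR2 s hs hsX k hk => H L hL R hR hR1 hR2 s hs hsX k hk⟩

theorem result : ∀ ε : ℝ, 0 < ε → ∃ d₀ : ℕ, ∀ d : ℕ, d₀ ≤ d → ∀ a : ℝ, 0 < a →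
    -- (1) the free energy in finite volume
    (∀ (L : ℝ) (N : ℕ), 2 * a ≤ L → 1 ≤ N →
      boxZ d a L N ≤ Real.exp (-(N * (Real.log (N / (L + 2 * a) ^ d) - 1 +
        (E (N / (L + 2 * a) ^ d * exclVol d a / d) - ε) * d)))) ∧
    -- (2) the free energy in the thermodynamic limit
    (∀ ρ : ℝ, 0 < ρ → ∀ (N : ℕ → ℕ) (L : ℕ → ℝ), Thermodynamic d ρ N L →
      (∀ᶠ j in atTop, boxZ d a (L j) (N j) ≤
        Real.exp (-(N j * (Real.log ρ - 1 + (E (ρ * exclVol d a / d) - ε) * d)))) ∧
      ∀ f : ℝ, (∀ᶠ j in atTop, 0 < boxZ d a (L j) (N j)) →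
        Tendsto (fun j => -(Real.log (boxZ d a (L j) (N j))) / N j) atTop (𝓝 f) →
        Real.log ρ - 1 + (E (ρ * exclVol d a / d) - ε) * d ≤ f) ∧
    -- (3) the number of spheres in the grand canonical ensemble, arbitrary boundary conditions
    ∃ L₀ : ℝ, ∀ L : ℝ, L₀ ≤ L → ∀ R : Set (Fin d → ℝ), MeasurableSet R →
      (∀ x, (∀ m, x m ∈ Icc (2 * a) (L - 2 * a)) → x ∈ R) →
      (∀ x ∈ R, ∀ m, x m ∈ Icc (0 : ℝ) L) →
      ∀ s : ℝ, 0 < s → s * Real.exp s ≤ Real.exp ((c - ε) * d) → ∀ k : ℕ, 1 ≤ k →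
        prob d a R (s * Real.exp s / exclVol d a) k ≤
          Real.exp (-((I (s / d) (k * exclVol d a / (L ^ d * d)) -
            ε * (1 + k * exclVol d a / (L ^ d * d))) * (d ^ 2 * L ^ d / exclVol d a))) := by
  intro ε hε
  obtain ⟨d₁, H1⟩ := free_energy ε hε
  obtain ⟨d₂, H2⟩ := large_deviations ε hε
  refine ⟨max d₁ d₂, fun d hd a ha => ?_⟩
  obtain ⟨h1, h2⟩ := H1 d ((le_max_left _ _).trans hd) a ha
  exact ⟨h1, h2, H2 d ((le_max_right _ _).trans hd) a ha⟩

end Pool.Agent.Results.MP_09cbbd_mp.FreeEnergyAllDensities
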