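import Pool.Agent.U279.PG.Main

/-!
MP_09cbbd_mp (Kirkwood transition for hard spheres), Q1 in part.

In high dimension the gas of hard spheres is, up to density `(log (2/√3) - ε) d / vol B(2a)`,
locally an ideal gas: for every boundary condition, and at all places of the box except for an
exponentially small part of it, the configuration of the centres in a window, which may be a
union of exponentially many balls of radius `2a`, is exponentially close in total variation to
the Poisson process of constant intensity.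
-/

set_option autoImplicit false
open Filter Topology MeasureTheory

namespace Pool.Agent.Results.MP_09cbbd_mp.LocalIdealGas

/-- the volume of a ball of radius `r` in `ℝ^d` -/
noncomputable def ballVol (d : ℕ) (r : ℝ) : ℝ :=
  (volume {x : Fin d → ℝ | ∑ k, x k ^ 2 < r ^ 2}).toReal

/-- the cube `[s, t]^d` -/
def box (d : ℕ) (s t : ℝ) : Set (Fin d → ℝ) := {x | ∀ k, x k ∈ Set.Icc s t}

/-- the positions in `W` of `N` spheres of radius `a` without overlap -/
def Packing (d N : ℕ) (a : ℝ) (W : Set (Fin d → ℝ)) : Set (Fin N → Fin d → ℝ) :=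
  {x | (∀ i, x i ∈ W) ∧ ∀ i j, i ≠ j → (2 * a) ^ 2 ≤ ∑ k, (x i k - x j k) ^ 2}

/-- the weight, at activity `z`, of the configurations in `W` whose set of centres is in `E` -/
noncomputable def weight (d : ℕ) (a z : ℝ) (W : Set (Fin d → ℝ))
    (E : Set (Set (Fin d → ℝ))) : ℝ :=
  ∑' N : ℕ, z ^ N / N.factorial *
    (volume {x : Fin N → Fin d → ℝ | x ∈ Packing d N a W ∧ Set.range x ∈ E}).toReal

/-- the probability of `E` in the grand canonical ensemble in `W` at activity `z` -/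
noncomputable def gibbs (d : ℕ) (a z : ℝ) (W : Set (Fin d → ℝ)) (E : Set (Set (Fin d → ℝ))) : ℝ :=
  weight d a z W E / weight d a z W Set.univ

/-- the probability of `A` for the Poisson process of intensity `ρ` in `D` (the ideal gas) -/
noncomputable def poisson (d : ℕ) (ρ : ℝ) (D : Set (Fin d → ℝ)) (A : Set (Set (Fin d → ℝ))) : ℝ :=
  Real.exp (-(ρ * (volume D).toReal)) * ∑' n : ℕ, ρ ^ n / n.factorial *
    (volume {x : Fin n → Fin d → ℝ | (∀ i, x i ∈ D) ∧ Set.range x ∈ A}).toReal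

/-- a property of finite sets of points which is measurable as a property of `n`-tuples -/
def Event {d : ℕ} (A : Set (Set (Fin d → ℝ))) : Prop :=
  ∀ n : ℕ, MeasurableSet {x : Fin n → Fin d → ℝ | Set.range x ∈ A}

/-- what is seen of the set `S` of centres in the window `y + D`, moved back to `D` -/
def seen {d : ℕ} (D : Set (Fin d → ℝ)) (y : Fin d → ℝ) (S : Set (Fin d → ℝ)) :
    Set (Fin d → ℝ) := {u | u ∈ D ∧ u + y ∈ S}

open Pool.Agent.U279.PG Pool.Agent.K4H61.HS
open Pool.Agent.U279.KT (cube cube_meas cube_vol cube_lt)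

theorem weight_eq {d : ℕ} (a : ℝ) (z : NNReal) {W : Set (Fin d → ℝ)}
    (hWt : volume W ≠ ⊤) {E : Set (Set (Fin d → ℝ))}
    (hE : ∀ n : ℕ, MeasurableSet {x : Fin n → Fin d → ℝ | Set.range x ∈ E}) :
    weight d a z W E =
      (Ex volume (cl d (2 * a)) z W (fun _ x => E.indicator 1 (Set.range x))).toReal := by
  have hG : ∀ N : ℕ, Gd (cl d (2 * a)) (Fin N) W = Packing d N a W := by
    intro N
    ext x
    simp only [Gd, Pk, cl, Packing, Set.mem_ofPred_eq, not_lt]
    tauto
  have h1 : ∀ N : ℕ, ∫⁻ x in Gd (cl d (2 * a)) (Fin N) W,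
      E.indicator (1 : Set (Fin d → ℝ) → ENNReal) (Set.range x)
        ∂(Measure.pi fun _ : Fin N => (volume : Measure (Fin d → ℝ))) =
      volume {x : Fin N → Fin d → ℝ | x ∈ Packing d N a W ∧ Set.range x ∈ E} := by
    intro N
    have h2 : ∀ x : Fin N → Fin d → ℝ,
        E.indicator (1 : Set (Fin d → ℝ) → ENNReal) (Set.range x) =
        {x : Fin N → Fin d → ℝ | Set.range x ∈ E}.indicator 1 x := by
      intro x
      simp only [Set.indicator, Set.mem_ofPred_eq, Pi.one_apply]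
    simp only [h2]
    rw [lintegral_indicator_one (hE N), Measure.restrict_apply (hE N), Set.inter_comm, hG]
    rfl
  have h3 : ∀ N : ℕ, ((z : ENNReal) ^ N / (N.factorial : ENNReal)) *
      volume {x : Fin N → Fin d → ℝ | x ∈ Packing d N a W ∧ Set.range x ∈ E} ≠ ⊤ := by
    intro N
    refine ENNReal.mul_ne_top (ENNReal.div_ne_top (ENNReal.pow_ne_top ENNReal.coe_ne_top)
      (by exact_mod_cast N.factorial_ne_zero)) ?_
    refine ne_top_of_le_ne_top ?_ (measure_mono (t := Set.univ.pi fun _ : Fin N => W) ?_)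
    · rw [volume_pi_pi, Finset.prod_const]
      exact ENNReal.pow_ne_top hWt
    · intro x hx
      rw [Set.mem_univ_pi]
      exact hx.1.1
  unfold Ex
  simp only [h1]
  rw [ENNReal.tsum_toReal_eq h3]
  unfold weight
  refine tsum_congr fun N => ?_
  rw [ENNReal.toReal_mul, ENNReal.toReal_div, ENNReal.toReal_pow, ENNReal.coe_toReal,
    ENNReal.toReal_natCast]

theorem poisson_eq {d : ℕ} {ρ : ℝ} (hρ : 0 ≤ ρ) {D : Set (Fin d → ℝ)}
    (hDt : volume D ≠ ⊤) {A : Set (Set (Fin d → ℝ))} (hA : Event A) :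
    poisson d ρ D A = (pP d ρ D A).toReal := by
  have h1 : ∀ N : ℕ, ∫⁻ x in Set.univ.pi (fun _ : Fin N => D),
      A.indicator (1 : Set (Fin d → ℝ) → ENNReal) (Set.range x)
        ∂(Measure.pi fun _ : Fin N => (volume : Measure (Fin d → ℝ))) =
      volume {x : Fin N → Fin d → ℝ | (∀ i, x i ∈ D) ∧ Set.range x ∈ A} := by
    intro N
    have h2 : ∀ x : Fin N → Fin d → ℝ,
        A.indicator (1 : Set (Fin d → ℝ) → ENNReal) (Set.range x) =
        {x : Fin N → Fin d → ℝ | Set.range x ∈ A}.indicator 1 x := by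
      intro x
      simp only [Set.indicator, Set.mem_ofPred_eq, Pi.one_apply]
    simp only [h2]
    rw [lintegral_indicator_one (hA N), Measure.restrict_apply (hA N), Set.inter_comm]
    have h4 : (Set.univ.pi fun _ : Fin N => D) ∩ {x : Fin N → Fin d → ℝ | Set.range x ∈ A} =
        {x : Fin N → Fin d → ℝ | (∀ i, x i ∈ D) ∧ Set.range x ∈ A} := by
      ext x
      simp only [Set.mem_inter_iff, Set.mem_univ_pi, Set.mem_ofPred_eq]
    rw [h4]
    rfl
  have h3 : ∀ N : ℕ, ((ENNReal.ofReal ρ) ^ N / (N.factorial : ENNReal)) *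
      volume {x : Fin N → Fin d → ℝ | (∀ i, x i ∈ D) ∧ Set.range x ∈ A} ≠ ⊤ := by
    intro N
    refine ENNReal.mul_ne_top (ENNReal.div_ne_top (ENNReal.pow_ne_top ENNReal.ofReal_ne_top)
      (by exact_mod_cast N.factorial_ne_zero)) ?_
    refine ne_top_of_le_ne_top ?_ (measure_mono (t := Set.univ.pi fun _ : Fin N => D) ?_)
    · rw [volume_pi_pi, Finset.prod_const]
      exact ENNReal.pow_ne_top hDt
    · intro x hx
      rw [Set.mem_univ_pi]
      exact hx.1
  unfold pP Pz
  simp only [h1]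
  rw [ENNReal.toReal_mul, ENNReal.tsum_toReal_eq h3, ENNReal.toReal_ofReal (Real.exp_pos _).le]
  unfold poisson
  congr 1
  refine tsum_congr fun N => ?_
  rw [ENNReal.toReal_mul, ENNReal.toReal_div, ENNReal.toReal_pow, ENNReal.toReal_ofReal hρ,
    ENNReal.toReal_natCast]

theorem gibbs_eq {d : ℕ} (a : ℝ) (z : NNReal) {W D : Set (Fin d → ℝ)}
    (hWt : volume W ≠ ⊤) (hD : MeasurableSet D) {A : Set (Set (Fin d → ℝ))} (hA : Event A)
    (y : Fin d → ℝ) :
    gibbs d a z W {S | seen D y S ∈ A} =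
      (pE d (2 * a) z W {x | x - y ∈ D} {S | {u | u + y ∈ S} ∈ A}).toReal := by
  have hUm : MeasurableSet {x : Fin d → ℝ | x - y ∈ D} := (measurable_id.sub_const y) hD
  have hset : ∀ S : Set (Fin d → ℝ), {u | u + y ∈ S ∩ {x | x - y ∈ D}} = seen D y S := by
    intro S
    ext u
    simp only [seen, Set.mem_ofPred_eq, Set.mem_inter_iff, add_sub_cancel_right]
    tauto
  have h0 := meas_part (shift_meas hA y) hUm
  have h1 : ∀ N : ℕ, MeasurableSet {x : Fin N → Fin d → ℝ | Set.range x ∈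
      {S : Set (Fin d → ℝ) | seen D y S ∈ A}} := by
    intro N
    have h2 := h0 N
    simp only [Set.mem_ofPred_eq, hset] at h2
    exact h2
  unfold gibbs pE
  rw [weight_eq a z hWt h1, weight_eq a z hWt (E := Set.univ) (fun n => by simp),
    ENNReal.toReal_div]
  congr 2
  · congr 1
    funext N x
    by_cases h : seen D y (Set.range x) ∈ A
    · rw [Set.indicator_of_mem (show Set.range x ∈ {S | seen D y S ∈ A} from h),
        Set.indicator_of_mem (by rw [Set.mem_ofPred_eq, hset]; exact h)]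
      rfl
    · rw [Set.indicator_of_notMem (show Set.range x ∉ {S | seen D y S ∈ A} from h),
        Set.indicator_of_notMem (by rw [Set.mem_ofPred_eq, hset]; exact h)]
  · rw [← Ex_one]
    congr 1
    funext N x
    simp

/-- **The hard sphere gas in high dimension is locally an ideal gas.** -/
theorem result (ε : ℝ) (hε : 0 < ε) : ∃ d₀ : ℕ, ∀ d ≥ d₀, ∀ a : ℝ, 0 < a → ∀ ρ : ℝ, 0 < ρ →
    ρ * ballVol d (2 * a) ≤ (Real.log (2 / √3) - ε) * d →
    ∀ R : ℝ, ∃ L₀ : ℝ, ∀ L ≥ L₀, ∀ W : Set (Fin d → ℝ), MeasurableSet W →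
      box d (2 * a) (L - 2 * a) ⊆ W → W ⊆ box d 0 L →
    ∀ D : Set (Fin d → ℝ), MeasurableSet D → D ⊆ box d (-R) R →
    ∀ M : ℕ, (M : ℝ) ≤ Real.exp (ε / 100 * d) → ∀ c : Fin M → Fin d → ℝ,
      (∀ x ∈ D, ∃ j, ∑ k, (c j k - x k) ^ 2 < (2 * a) ^ 2) →
    ∃ Bad : Set (Fin d → ℝ), MeasurableSet Bad ∧
      volume Bad ≤ ENNReal.ofReal (Real.exp (-(ε / 100 * d)) * L ^ d) ∧
      ∀ y ∈ box d 0 L, y ∉ Bad → ∀ A : Set (Set (Fin d → ℝ)), Event A →
        |gibbs d a (ρ * Real.exp (ρ * ballVol d (2 * a))) W {S | seen D y S ∈ A} -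
          poisson d ρ D A| ≤ Real.exp (-(ε / 100 * d)) := by
  obtain ⟨d₀, h0⟩ := eventually_atTop.1 (local_law ε hε)
  refine ⟨d₀, fun d hd a ha ρ hρ hlam R => ?_⟩
  have hB : ballVol d (2 * a) = bv d (2 * a) := rfl
  rw [hB] at hlam ⊢
  have hz0 : 0 ≤ ρ * Real.exp (ρ * bv d (2 * a)) := by positivity
  set z : NNReal := ⟨ρ * Real.exp (ρ * bv d (2 * a)), hz0⟩ with hz
  obtain ⟨L₀, h1⟩ := eventually_atTop.1
    (h0 d hd (2 * a) (by positivity) ρ hρ hlam z rfl R)
  refine ⟨L₀, fun L hL W hW hW1 hW2 D hD hDR M hM c hc => ?_⟩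
  have hreg : Region d (2 * a) L W := ⟨hW, hW1, hW2⟩
  obtain ⟨Bad, hB1, hB2, hB3⟩ := h1 L hL W hreg D hD
    (fun x hx k => abs_le.2 ⟨(hDR hx k).1, (hDR hx k).2⟩) M hM c (fun x hx => hc x hx)
  refine ⟨Bad, hB1, hB2, fun y hy hyB A hA => ?_⟩
  have h2 := hB3 y hy hyB A hA
  have hWt := W_lt hreg
  have hDt : volume D ≠ ⊤ := ne_top_of_le_ne_top ENNReal.ofReal_ne_top
    (vol_cover (2 * a) c fun x hx => hc x hx)
  have h3 := gibbs_eq a z hWt hD hA y
  rw [← h3, ← poisson_eq hρ.le hDt hA] at h2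
  exact h2

end Pool.Agent.Results.MP_09cbbd_mp.LocalIdealGas
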