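import Pool.Agent.U279.PG.Dlr

/-!
MP_09cbbd_mp (Kirkwood transition for hard spheres), Q1 in part: near uniqueness of the phase.

In high dimension, at the activities `z = ρ exp (ρ vol B(2a))` with `ρ vol B(2a)` up to
`(log (2/√3) - ε) d`, all infinite volume Gibbs measures of the hard sphere gas are exponentially
close, in total variation in windows which may be unions of exponentially many balls, to the
Poisson process of intensity `ρ` and so to each other: the stationary ones everywhere, the others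
at all places except for an exponentially small part of the space.
-/

set_option autoImplicit false
open Filter Topology MeasureTheory

namespace Pool.Agent.Results.MP_09cbbd_mp.NearUniqueness

/-- the volume of a ball of radius `r` in `ℝ^d` -/
noncomputable def ballVol (d : ℕ) (r : ℝ) : ℝ :=
  (volume {x : Fin d → ℝ | ∑ k, x k ^ 2 < r ^ 2}).toReal

/-- the cube `c + [0, L]^d` -/
def box (d : ℕ) (c : Fin d → ℝ) (L : ℝ) : Set (Fin d → ℝ) :=
  {x | ∀ k, x k ∈ Set.Icc (c k) (c k + L)}

/-- the positions in `W` of `N` spheres of radius `a` without overlap -/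
def Packing (d N : ℕ) (a : ℝ) (W : Set (Fin d → ℝ)) : Set (Fin N → Fin d → ℝ) :=
  {x | (∀ i, x i ∈ W) ∧ ∀ i j, i ≠ j → (2 * a) ^ 2 ≤ ∑ k, (x i k - x j k) ^ 2}

/-- the weight, at activity `z`, of the configurations in `W` whose set of centres is in `E` -/
noncomputable def weight (d : ℕ) (a z : ℝ) (W : Set (Fin d → ℝ))
    (E : Set (Set (Fin d → ℝ))) : ℝ :=
  ∑' N : ℕ, z ^ N / N.factorial *
    (volume {x : Fin N → Fin d → ℝ | x ∈ Packing d N a W ∧ Set.range x ∈ E}).toReal

/-- the probability of `E` in the grand canonical ensemble in `W` at activity `z` -/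
noncomputable def gibbs (d : ℕ) (a z : ℝ) (W : Set (Fin d → ℝ)) (E : Set (Set (Fin d → ℝ))) : ℝ :=
  weight d a z W E / weight d a z W Set.univ

/-- the probability of `A` for the Poisson process of intensity `ρ` in `D` (the ideal gas) -/
noncomputable def poisson (d : ℕ) (ρ : ℝ) (D : Set (Fin d → ℝ)) (A : Set (Set (Fin d → ℝ))) : ℝ :=
  Real.exp (-(ρ * (volume D).toReal)) * ∑' n : ℕ, ρ ^ n / n.factorial *
    (volume {x : Fin n → Fin d → ℝ | (∀ i, x i ∈ D) ∧ Set.range x ∈ A}).toReal

/-- a property of finite sets of points which is measurable as a property of `n`-tuples -/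
def Event {d : ℕ} (A : Set (Set (Fin d → ℝ))) : Prop :=
  ∀ n : ℕ, MeasurableSet {x : Fin n → Fin d → ℝ | Set.range x ∈ A}

/-- what is seen of the set `S` of centres in the window `y + D`, moved back to `D` -/
def seen {d : ℕ} (D : Set (Fin d → ℝ)) (y : Fin d → ℝ) (S : Set (Fin d → ℝ)) :
    Set (Fin d → ℝ) := {u | u ∈ D ∧ u + y ∈ S}

/-- the positions in the cube `c + [0, L]^d` where a sphere of radius `a` does not overlap with the
spheres whose centres are the points of `S` outside of the cube -/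
def allowed (d : ℕ) (a : ℝ) (c : Fin d → ℝ) (L : ℝ) (S : Set (Fin d → ℝ)) : Set (Fin d → ℝ) :=
  {x | x ∈ box d c L ∧ ∀ w ∈ S, w ∉ box d c L → (2 * a) ^ 2 ≤ ∑ k, (x k - w k) ^ 2}

/-- a random set `S` of points: it is measurable that `S` has a point in the Borel set `B` -/
def PointProcess {Ω : Type} [MeasurableSpace Ω] {d : ℕ} (S : Ω → Set (Fin d → ℝ)) : Prop :=
  ∀ B : Set (Fin d → ℝ), MeasurableSet B → MeasurableSet {ω | (S ω ∩ B).Nonempty}

/-- `S` is a Gibbs point process of hard spheres of radius `a` at activity `z` (equations of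
Dobrushin, Lanford and Ruelle for cubes, averaged over the points outside): the law of the points in
a cube is the mean of the grand canonical ensembles with the boundary conditions given by the points
outside of the cube -/
def IsGibbs {Ω : Type} [MeasurableSpace Ω] (P : Measure Ω) (d : ℕ) (a z : ℝ)
    (S : Ω → Set (Fin d → ℝ)) : Prop :=
  ∀ (c : Fin d → ℝ) (L : ℝ), 0 < L → ∀ A : Set (Set (Fin d → ℝ)), Event A →
    P {ω | S ω ∩ box d c L ∈ A} =
      ∫⁻ ω, ENNReal.ofReal (gibbs d a z (allowed d a c L (S ω)) A) ∂P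

/-- `S` is stationary: what is seen in bounded windows has the same law at all places -/
def IsStationary {Ω : Type} [MeasurableSpace Ω] (P : Measure Ω) {d : ℕ}
    (S : Ω → Set (Fin d → ℝ)) : Prop :=
  ∀ (D : Set (Fin d → ℝ)) (R : ℝ), MeasurableSet D → (∀ x ∈ D, ∀ k, |x k| ≤ R) →
    ∀ A : Set (Set (Fin d → ℝ)), Event A → ∀ y : Fin d → ℝ,
      P {ω | seen D y (S ω) ∈ A} = P {ω | seen D 0 (S ω) ∈ A}

/-- the window `D` is bounded by `R` and covered by at most `K` balls of radius `2a` -/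
def IsWindow (d : ℕ) (a R K : ℝ) (D : Set (Fin d → ℝ)) : Prop :=
  MeasurableSet D ∧ (∀ x ∈ D, ∀ k, |x k| ≤ R) ∧ ∃ (M : ℕ) (c : Fin M → Fin d → ℝ), (M : ℝ) ≤ K ∧
    ∀ x ∈ D, ∃ j, ∑ k, (c j k - x k) ^ 2 < (2 * a) ^ 2

open Pool.Agent.U279.PG Pool.Agent.K4H61.HS
open Pool.Agent.U279.KT (cube cube_meas cube_vol cube_lt)

theorem weight_eq {d : ℕ} (a : ℝ) (z : NNReal) {W : Set (Fin d → ℝ)}
    (hWt : volume W ≠ ⊤) {E : Set (Set (Fin d → ℝ))}
    (hE : ∀ n : ℕ, MeasurableSet {x : Fin n → Fin d → ℝ | Set.range x ∈ E}) :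
    weight d a z W E =
      (Ex volume (cl d (2 * a)) z W (fun _ x => E.indicator 1 (Set.range x))).toReal := by
  have hG : ∀ N : ℕ, Gd (cl d (2 * a)) (Fin N) W = Packing d N a W := by
    intro N
    ext x
    simp only [Gd, Pk, cl, Packing, Set.mem_ofPred_eq, not_lt]
    tauto
  have h1 : ∀ N : ℕ, ∫⁻ x in Gd (cl d (2 * a)) (Fin N) W,
      E.indicator (1 : Set (Fin d → ℝ) → ENNReal) (Set.range x)
        ∂(Measure.pi fun _ : Fin N => (volume : Measure (Fin d → ℝ))) =
      volume {x : Fin N → Fin d → ℝ | x ∈ Packing d N a W ∧ Set.range x ∈ E} := by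
    intro N
    have h2 : ∀ x : Fin N → Fin d → ℝ,
        E.indicator (1 : Set (Fin d → ℝ) → ENNReal) (Set.range x) =
        {x : Fin N → Fin d → ℝ | Set.range x ∈ E}.indicator 1 x := by
      intro x
      simp only [Set.indicator, Set.mem_ofPred_eq, Pi.one_apply]
    simp only [h2]
    rw [lintegral_indicator_one (hE N), Measure.restrict_apply (hE N), Set.inter_comm, hG]
    rfl
  have h3 : ∀ N : ℕ, ((z : ENNReal) ^ N / (N.factorial : ENNReal)) *
      volume {x : Fin N → Fin d → ℝ | x ∈ Packing d N a W ∧ Set.range x ∈ E} ≠ ⊤ := by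
    intro N
    refine ENNReal.mul_ne_top (ENNReal.div_ne_top (ENNReal.pow_ne_top ENNReal.coe_ne_top)
      (by exact_mod_cast N.factorial_ne_zero)) ?_
    refine ne_top_of_le_ne_top ?_ (measure_mono (t := Set.univ.pi fun _ : Fin N => W) ?_)
    · rw [volume_pi_pi, Finset.prod_const]
      exact ENNReal.pow_ne_top hWt
    · intro x hx
      rw [Set.mem_univ_pi]
      exact hx.1.1
  unfold Ex
  simp only [h1]
  rw [ENNReal.tsum_toReal_eq h3]
  unfold weight
  refine tsum_congr fun N => ?_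
  rw [ENNReal.toReal_mul, ENNReal.toReal_div, ENNReal.toReal_pow, ENNReal.coe_toReal,
    ENNReal.toReal_natCast]

theorem poisson_eq {d : ℕ} {ρ : ℝ} (hρ : 0 ≤ ρ) {D : Set (Fin d → ℝ)}
    (hDt : volume D ≠ ⊤) {A : Set (Set (Fin d → ℝ))} (hA : Event A) :
    poisson d ρ D A = (pP d ρ D A).toReal := by
  have h1 : ∀ N : ℕ, ∫⁻ x in Set.univ.pi (fun _ : Fin N => D),
      A.indicator (1 : Set (Fin d → ℝ) → ENNReal) (Set.range x)
        ∂(Measure.pi fun _ : Fin N => (volume : Measure (Fin d → ℝ))) =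
      volume {x : Fin N → Fin d → ℝ | (∀ i, x i ∈ D) ∧ Set.range x ∈ A} := by
    intro N
    have h2 : ∀ x : Fin N → Fin d → ℝ,
        A.indicator (1 : Set (Fin d → ℝ) → ENNReal) (Set.range x) =
        {x : Fin N → Fin d → ℝ | Set.range x ∈ A}.indicator 1 x := by
      intro x
      simp only [Set.indicator, Set.mem_ofPred_eq, Pi.one_apply]
    simp only [h2]
    rw [lintegral_indicator_one (hA N), Measure.restrict_apply (hA N), Set.inter_comm]
    have h4 : (Set.univ.pi fun _ : Fin N => D) ∩ {x : Fin N → Fin d → ℝ | Set.range x ∈ A} =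
        {x : Fin N → Fin d → ℝ | (∀ i, x i ∈ D) ∧ Set.range x ∈ A} := by
      ext x
      simp only [Set.mem_inter_iff, Set.mem_univ_pi, Set.mem_ofPred_eq]
    rw [h4]
    rfl
  have h3 : ∀ N : ℕ, ((ENNReal.ofReal ρ) ^ N / (N.factorial : ENNReal)) *
      volume {x : Fin N → Fin d → ℝ | (∀ i, x i ∈ D) ∧ Set.range x ∈ A} ≠ ⊤ := by
    intro N
    refine ENNReal.mul_ne_top (ENNReal.div_ne_top (ENNReal.pow_ne_top ENNReal.ofReal_ne_top)
      (by exact_mod_cast N.factorial_ne_zero)) ?_
    refine ne_top_of_le_ne_top ?_ (measure_mono (t := Set.univ.pi fun _ : Fin N => D) ?_)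
    · rw [volume_pi_pi, Finset.prod_const]
      exact ENNReal.pow_ne_top hDt
    · intro x hx
      rw [Set.mem_univ_pi]
      exact hx.1
  unfold pP Pz
  simp only [h1]
  rw [ENNReal.toReal_mul, ENNReal.tsum_toReal_eq h3, ENNReal.toReal_ofReal (Real.exp_pos _).le]
  unfold poisson
  congr 1
  refine tsum_congr fun N => ?_
  rw [ENNReal.toReal_mul, ENNReal.toReal_div, ENNReal.toReal_pow, ENNReal.toReal_ofReal hρ,
    ENNReal.toReal_natCast]

theorem gibbs_eq {d : ℕ} (a : ℝ) (z : NNReal) {W D : Set (Fin d → ℝ)}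
    (hWt : volume W ≠ ⊤) (hD : MeasurableSet D) {A : Set (Set (Fin d → ℝ))} (hA : Event A)
    (y : Fin d → ℝ) :
    gibbs d a z W {S | seen D y S ∈ A} =
      (pE d (2 * a) z W {x | x - y ∈ D} {S | {u | u + y ∈ S} ∈ A}).toReal := by
  have hUm : MeasurableSet {x : Fin d → ℝ | x - y ∈ D} := (measurable_id.sub_const y) hD
  have hset : ∀ S : Set (Fin d → ℝ), {u | u + y ∈ S ∩ {x | x - y ∈ D}} = seen D y S := by
    intro S
    ext u
    simp only [seen, Set.mem_ofPred_eq, Set.mem_inter_iff, add_sub_cancel_right]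
    tauto
  have h0 := meas_part (shift_meas hA y) hUm
  have h1 : ∀ N : ℕ, MeasurableSet {x : Fin N → Fin d → ℝ | Set.range x ∈
      {S : Set (Fin d → ℝ) | seen D y S ∈ A}} := by
    intro N
    have h2 := h0 N
    simp only [Set.mem_ofPred_eq, hset] at h2
    exact h2
  unfold gibbs pE
  rw [weight_eq a z hWt h1, weight_eq a z hWt (E := Set.univ) (fun n => by simp),
    ENNReal.toReal_div]
  congr 2
  · congr 1
    funext N x
    by_cases h : seen D y (Set.range x) ∈ A
    · rw [Set.indicator_of_mem (show Set.range x ∈ {S | seen D y S ∈ A} from h),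
        Set.indicator_of_mem (by rw [Set.mem_ofPred_eq, hset]; exact h)]
      rfl
    · rw [Set.indicator_of_notMem (show Set.range x ∉ {S | seen D y S ∈ A} from h),
        Set.indicator_of_notMem (by rw [Set.mem_ofPred_eq, hset]; exact h)]
  · rw [← Ex_one]
    congr 1
    funext N x
    simp

theorem event_seen {d : ℕ} {D : Set (Fin d → ℝ)} (hD : MeasurableSet D)
    {A : Set (Set (Fin d → ℝ))} (hA : Event A) (y : Fin d → ℝ) : Event {S | seen D y S ∈ A} := by
  have hUm : MeasurableSet {x : Fin d → ℝ | x - y ∈ D} := (measurable_id.sub_const y) hD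
  have hset : ∀ S : Set (Fin d → ℝ), {u | u + y ∈ S ∩ {x | x - y ∈ D}} = seen D y S := by
    intro S
    ext u
    simp only [seen, Set.mem_ofPred_eq, Set.mem_inter_iff, add_sub_cancel_right]
    tauto
  intro N
  have h2 := meas_part (shift_meas hA y) hUm N
  simp only [Set.mem_ofPred_eq, hset] at h2
  exact h2

/-- translation invariance of the grand canonical ensembles -/
theorem gibbs_shift {d : ℕ} (a z : ℝ) (W : Set (Fin d → ℝ)) (E : Set (Set (Fin d → ℝ)))
    (v : Fin d → ℝ) :
    gibbs d a z {x | x - v ∈ W} {T | {u | u + v ∈ T} ∈ E} = gibbs d a z W E := by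
  have hw : ∀ F : Set (Set (Fin d → ℝ)),
      weight d a z {x | x - v ∈ W} {T | {u | u + v ∈ T} ∈ F} = weight d a z W F := by
    intro F
    unfold weight
    refine tsum_congr fun N => ?_
    congr 2
    rw [← measure_preimage_add_right (volume : Measure (Fin N → Fin d → ℝ)) (fun _ => v)]
    congr 1
    ext x
    have h1 : {u | u + v ∈ Set.range (x + fun _ => v)} = Set.range x := by
      ext u
      simp only [Set.mem_ofPred_eq, Set.mem_range, Pi.add_apply]
      exact ⟨fun ⟨i, hi⟩ => ⟨i, add_right_cancel hi⟩, fun ⟨i, hi⟩ => ⟨i, by rw [hi]⟩⟩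
    simp only [Set.mem_preimage, Set.mem_ofPred_eq, Packing, h1, Pi.add_apply,
      add_sub_cancel_right, add_sub_add_right_eq_sub]
  unfold gibbs
  have h2 : ({T : Set (Fin d → ℝ) | {u | u + v ∈ T} ∈ (Set.univ : Set (Set (Fin d → ℝ)))}) =
      Set.univ := by
    ext T
    simp
  rw [hw E, ← hw Set.univ, h2]

theorem hit_joint {Ω : Type} [MeasurableSpace Ω] {d : ℕ} {S : Ω → Set (Fin d → ℝ)}
    (hS : PointProcess S) {K : Set (Fin d → ℝ)} (hK : MeasurableSet K)
    {G : Set ((Fin d → ℝ) × (Fin d → ℝ))} (hG : IsOpen G) :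
    MeasurableSet {p : Ω × (Fin d → ℝ) | ∃ w ∈ S p.1, w ∈ K ∧ (p.2, w) ∈ G} := by
  have h1 : {p : Ω × (Fin d → ℝ) | ∃ w ∈ S p.1, w ∈ K ∧ (p.2, w) ∈ G} =
      ⋃ O₁ ∈ TopologicalSpace.countableBasis (Fin d → ℝ),
      ⋃ O₂ ∈ TopologicalSpace.countableBasis (Fin d → ℝ), ⋃ _ : O₁ ×ˢ O₂ ⊆ G,
        ({ω | (S ω ∩ (O₂ ∩ K)).Nonempty} ×ˢ O₁) := by
    ext p
    simp only [Set.mem_iUnion, Set.mem_prod, Set.mem_ofPred_eq, exists_prop]
    constructor
    · rintro ⟨w, hw, hwK, hpw⟩
      have hb := (TopologicalSpace.isBasis_countableBasis (Fin d → ℝ)).prod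
        (TopologicalSpace.isBasis_countableBasis (Fin d → ℝ))
      obtain ⟨O, hO, hpO, hOG⟩ := hb.exists_subset_of_mem_open hpw hG
      obtain ⟨O₁, h1, O₂, h2, rfl⟩ := hO
      exact ⟨O₁, h1, O₂, h2, hOG, ⟨w, hw, hpO.2, hwK⟩, hpO.1⟩
    · rintro ⟨O₁, h1, O₂, h2, hOG, ⟨w, hw, hw2, hwK⟩, hp⟩
      exact ⟨w, hw, hwK, hOG ⟨hp, hw2⟩⟩
  rw [h1]
  refine MeasurableSet.biUnion (TopologicalSpace.countable_countableBasis _) fun O₁ hO₁ =>
    MeasurableSet.biUnion (TopologicalSpace.countable_countableBasis _) fun O₂ hO₂ =>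
    MeasurableSet.iUnion fun _ => ?_
  have m1 := (TopologicalSpace.isOpen_of_mem_countableBasis hO₁).measurableSet
  have m2 := (TopologicalSpace.isOpen_of_mem_countableBasis hO₂).measurableSet
  exact (hS _ (m2.inter hK)).prod m1

theorem box_measurable (d : ℕ) (c : Fin d → ℝ) (L : ℝ) : MeasurableSet (box d c L) := by
  have h1 : box d c L = Set.univ.pi fun k => Set.Icc (c k) (c k + L) := by
    ext x
    rw [Set.mem_univ_pi]
    rfl
  rw [h1]
  exact MeasurableSet.univ_pi fun _ => measurableSet_Icc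

theorem allowed_meas {Ω : Type} [MeasurableSpace Ω] {d : ℕ} {S : Ω → Set (Fin d → ℝ)}
    (hS : PointProcess S) (a L : ℝ) :
    MeasurableSet {p : Ω × (Fin d → ℝ) | p.2 ∈ allowed d a 0 L (S p.1)} := by
  have hG : IsOpen {q : (Fin d → ℝ) × (Fin d → ℝ) | ∑ k, (q.1 k - q.2 k) ^ 2 < (2 * a) ^ 2} :=
    isOpen_lt (by fun_prop) continuous_const
  have h1 := hit_joint hS (box_measurable d 0 L).compl hG
  have h2 : {p : Ω × (Fin d → ℝ) | p.2 ∈ allowed d a 0 L (S p.1)} =
      (Prod.snd ⁻¹' box d 0 L) \ {p : Ω × (Fin d → ℝ) | ∃ w ∈ S p.1, w ∈ (box d 0 L)ᶜ ∧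
        (p.2, w) ∈ {q : (Fin d → ℝ) × (Fin d → ℝ) |
          ∑ k, (q.1 k - q.2 k) ^ 2 < (2 * a) ^ 2}} := by
    ext p
    simp only [allowed, Set.mem_ofPred_eq, Set.mem_sdiff, Set.mem_preimage, Set.mem_compl_iff,
      not_exists, not_and, not_lt]
  rw [h2]
  exact (measurable_snd (box_measurable d 0 L)).diff h1

theorem allowed_region {Ω : Type} [MeasurableSpace Ω] {d : ℕ} {S : Ω → Set (Fin d → ℝ)}
    (hS : PointProcess S) {a : ℝ} (ha : 0 < a) (L : ℝ) (ω : Ω) :
    Region d (2 * a) L {x | (ω, x) ∈ {p : Ω × (Fin d → ℝ) | p.2 ∈ allowed d a 0 L (S p.1)}} := by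
  refine ⟨measurable_prodMk_left (x := ω) (allowed_meas hS a L), fun x hx => ?_, fun x hx k => ?_⟩
  · refine ⟨fun k => ?_, fun w hw hwb => ?_⟩
    · have := hx k
      simp only [Pi.zero_apply, zero_add]
      exact ⟨by linarith [this.1], by linarith [this.2]⟩
    · have h1 : ∃ k, w k ∉ Set.Icc (0 : ℝ) L := by
        by_contra hcon
        push Not at hcon
        apply hwb
        intro k
        simpa using hcon k
      obtain ⟨k, hk⟩ := h1
      have h2 := hx k
      have h3 : (2 * a) ^ 2 ≤ (x k - w k) ^ 2 := by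
        rw [Set.mem_Icc, not_and_or, not_le, not_le] at hk
        rcases hk with hk | hk
        · have : 2 * a ≤ x k - w k := by linarith [h2.1]
          nlinarith
        · have : 2 * a ≤ w k - x k := by linarith [h2.2]
          nlinarith
      exact h3.trans (Finset.single_le_sum (f := fun k => (x k - w k) ^ 2)
        (fun i _ => sq_nonneg _) (Finset.mem_univ k))
  · have := hx.1 k
    simpa using this

/-- **Near uniqueness of the Gibbs measures of the hard sphere gas in high dimension.** -/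
theorem result (ε : ℝ) (hε : 0 < ε) : ∃ d₀ : ℕ, ∀ d ≥ d₀, ∀ a : ℝ, 0 < a → ∀ ρ : ℝ, 0 < ρ →
    ρ * ballVol d (2 * a) ≤ (Real.log (2 / √3) - ε) * d →
    -- (1) every Gibbs measure is close to the ideal gas at most places
    (∀ R : ℝ, ∃ L₀ : ℝ, ∀ L ≥ L₀, ∀ (Ω : Type) [MeasurableSpace Ω] (P : Measure Ω)
      [IsProbabilityMeasure P] (S : Ω → Set (Fin d → ℝ)), PointProcess S →
      IsGibbs P d a (ρ * Real.exp (ρ * ballVol d (2 * a))) S →
      ∀ (v : Fin d → ℝ) (D : Set (Fin d → ℝ)), IsWindow d a R (Real.exp (ε / 100 * d)) D →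
      ∃ Bad : Set (Fin d → ℝ), MeasurableSet Bad ∧
        volume Bad ≤ ENNReal.ofReal (Real.exp (-(ε / 100 * d)) * L ^ d) ∧
        ∀ y ∈ box d v L, y ∉ Bad → ∀ A : Set (Set (Fin d → ℝ)), Event A →
          |(P {ω | seen D y (S ω) ∈ A}).toReal - poisson d ρ D A| ≤
            Real.exp (-(ε / 100 * d))) ∧
    -- (2) the stationary ones are close to the ideal gas everywhere
    (∀ (Ω : Type) [MeasurableSpace Ω] (P : Measure Ω) [IsProbabilityMeasure P]
      (S : Ω → Set (Fin d → ℝ)), PointProcess S →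
      IsGibbs P d a (ρ * Real.exp (ρ * ballVol d (2 * a))) S → IsStationary P S →
      ∀ (R : ℝ) (D : Set (Fin d → ℝ)), IsWindow d a R (Real.exp (ε / 100 * d)) D →
      ∀ A : Set (Set (Fin d → ℝ)), Event A →
        |(P {ω | S ω ∩ D ∈ A}).toReal - poisson d ρ D A| ≤ Real.exp (-(ε / 100 * d))) ∧
    -- (3) and so close to each other
    (∀ (Ω Ω' : Type) [MeasurableSpace Ω] [MeasurableSpace Ω'] (P : Measure Ω) (P' : Measure Ω')
      [IsProbabilityMeasure P] [IsProbabilityMeasure P'] (S : Ω → Set (Fin d → ℝ))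
      (S' : Ω' → Set (Fin d → ℝ)), PointProcess S → PointProcess S' →
      IsGibbs P d a (ρ * Real.exp (ρ * ballVol d (2 * a))) S →
      IsGibbs P' d a (ρ * Real.exp (ρ * ballVol d (2 * a))) S' →
      IsStationary P S → IsStationary P' S' →
      ∀ (R : ℝ) (D : Set (Fin d → ℝ)), IsWindow d a R (Real.exp (ε / 100 * d)) D →
      ∀ A : Set (Set (Fin d → ℝ)), Event A →
        |(P {ω | S ω ∩ D ∈ A}).toReal - (P' {ω | S' ω ∩ D ∈ A}).toReal| ≤
          2 * Real.exp (-(ε / 100 * d))) := by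
  obtain ⟨d₁, h0⟩ := eventually_atTop.1 ((dlr_law ε hε).and (eventually_ge_atTop 1))
  refine ⟨d₁, fun d hd a ha ρ hρ hlam => ?_⟩
  obtain ⟨h0, hd1⟩ := h0 d hd
  have hB : ballVol d (2 * a) = bv d (2 * a) := rfl
  rw [hB] at hlam ⊢
  have hz0 : 0 ≤ ρ * Real.exp (ρ * bv d (2 * a)) := by positivity
  set z : NNReal := ⟨ρ * Real.exp (ρ * bv d (2 * a)), hz0⟩ with hz
  have hzc : ρ * Real.exp (ρ * bv d (2 * a)) = (z : ℝ) := rfl
  rw [hzc]
  set θ := Real.exp (-(ε / 100 * (d : ℝ))) with hθ
  have hθ1 : θ < 1 := by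
    rw [hθ, Real.exp_lt_one_iff]
    have : (1 : ℝ) ≤ d := by exact_mod_cast hd1
    have : 0 < ε / 100 * (d : ℝ) := by positivity
    linarith
  have main : ∀ R : ℝ, ∃ L₀ : ℝ, 0 < L₀ ∧ ∀ L ≥ L₀, ∀ (Ω : Type) [MeasurableSpace Ω]
      (P : Measure Ω) [IsProbabilityMeasure P] (S : Ω → Set (Fin d → ℝ)), PointProcess S →
      IsGibbs P d a (z : ℝ) S →
      ∀ (v : Fin d → ℝ) (D : Set (Fin d → ℝ)), IsWindow d a R (Real.exp (ε / 100 * d)) D →
      ∃ Bad : Set (Fin d → ℝ), MeasurableSet Bad ∧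
        volume Bad ≤ ENNReal.ofReal (θ * L ^ d) ∧
        ∀ y ∈ box d v L, y ∉ Bad → ∀ A : Set (Set (Fin d → ℝ)), Event A →
          |(P {ω | seen D y (S ω) ∈ A}).toReal - poisson d ρ D A| ≤ θ := by
    intro R
    obtain ⟨L₁, h1⟩ := eventually_atTop.1 (h0 (2 * a) (by positivity) ρ hρ hlam z rfl R)
    refine ⟨max L₁ 1, lt_of_lt_of_le zero_lt_one (le_max_right _ _), ?_⟩
    intro L hL Ω _ P _ S hS hG v D hD
    have hL0 : 0 < L := lt_of_lt_of_le zero_lt_one ((le_max_right _ _).trans hL)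
    obtain ⟨hDm, hDR, M, c, hM, hc⟩ := hD
    set S' : Ω → Set (Fin d → ℝ) := fun ω => {u | u + v ∈ S ω} with hS'
    have hSp : PointProcess S' := by
      intro B hBm
      have e : {ω | (S' ω ∩ B).Nonempty} = {ω | (S ω ∩ {x | x - v ∈ B}).Nonempty} := by
        ext ω
        simp only [Set.mem_ofPred_eq, hS']
        constructor
        · rintro ⟨u, hu, huB⟩
          exact ⟨u + v, hu, by simpa using huB⟩
        · rintro ⟨x, hx, hxB⟩
          exact ⟨x - v, by simpa using hx, hxB⟩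
      rw [e]
      exact hS _ ((measurable_id.sub_const v) hBm)
    obtain ⟨Bad, hB1, hB2, hB3⟩ := h1 L ((le_max_left _ _).trans hL) Ω P
      {p : Ω × (Fin d → ℝ) | p.2 ∈ allowed d a 0 L (S' p.1)} (allowed_meas hSp a L)
      (allowed_region hSp ha L) D hDm hDR M hM c (fun x hx => hc x hx)
    refine ⟨{y | y - v ∈ Bad}, (measurable_id.sub_const v) hB1, ?_, fun y hy hyB A hA => ?_⟩
    · rw [win_vol hB1 v]
      exact hB2
    have hy' : y - v ∈ cube d L := by
      intro k
      have := hy k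
      rw [Pi.sub_apply]
      exact ⟨by linarith [this.1], by linarith [this.2]⟩
    obtain ⟨hin, h2⟩ := hB3 (y - v) hy' hyB
    have h3 := h2 A hA
    have hDt : volume D ≠ ⊤ := ne_top_of_le_ne_top ENNReal.ofReal_ne_top
      (vol_cover (2 * a) c fun x hx => hc x hx)
    rw [← poisson_eq hρ.le hDt hA] at h3
    have hseen : ∀ T : Set (Fin d → ℝ), seen D y (T ∩ box d v L) = seen D y T := by
      intro T
      ext u
      simp only [seen, Set.mem_ofPred_eq, Set.mem_inter_iff]
      constructor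
      · rintro ⟨hu, hT, -⟩
        exact ⟨hu, hT⟩
      · rintro ⟨hu, hT⟩
        refine ⟨hu, hT, fun k => ?_⟩
        have h4 := hin (u + (y - v)) (by rw [add_sub_cancel_right]; exact hu) k
        simp only [Pi.add_apply, Pi.sub_apply] at h4 ⊢
        exact ⟨by linarith [h4.1], by linarith [h4.2]⟩
    have h5 := hG v L hL0 {T | seen D y T ∈ A} (event_seen hDm hA y)
    have h6 : {ω | S ω ∩ box d v L ∈ {T | seen D y T ∈ A}} = {ω | seen D y (S ω) ∈ A} := by
      ext ω
      simp only [Set.mem_ofPred_eq, hseen]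
    rw [h6] at h5
    have h7 : ∀ ω, ENNReal.ofReal (gibbs d a (z : ℝ) (allowed d a v L (S ω))
        {T | seen D y T ∈ A}) = pE d (2 * a) z
          {x | (ω, x) ∈ {p : Ω × (Fin d → ℝ) | p.2 ∈ allowed d a 0 L (S' p.1)}}
          {x | x - (y - v) ∈ D} {S | {u | u + (y - v) ∈ S} ∈ A} := by
      intro ω
      have hreg := allowed_region hSp ha L ω
      have hWt := W_lt hreg
      set W := {x | (ω, x) ∈ {p : Ω × (Fin d → ℝ) | p.2 ∈ allowed d a 0 L (S' p.1)}} with hWdef
      have e1 : allowed d a v L (S ω) = {x | x - v ∈ W} := by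
        ext x
        simp only [hWdef, allowed, Set.mem_ofPred_eq, hS', box, Pi.sub_apply, Pi.zero_apply,
          zero_add]
        constructor
        · rintro ⟨g1, g2⟩
          refine ⟨fun k => ⟨by linarith [(g1 k).1], by linarith [(g1 k).2]⟩, fun w hw hwb => ?_⟩
          have := g2 (w + v) hw (fun hcon => hwb fun k => by
            have := hcon k
            rw [Pi.add_apply] at this
            exact ⟨by linarith [this.1], by linarith [this.2]⟩)
          refine this.trans (le_of_eq (Finset.sum_congr rfl fun k _ => ?_))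
          rw [Pi.add_apply]
          ring
        · rintro ⟨g1, g2⟩
          refine ⟨fun k => ⟨by linarith [(g1 k).1], by linarith [(g1 k).2]⟩, fun w hw hwb => ?_⟩
          have := g2 (w - v) (by rw [sub_add_cancel]; exact hw) (fun hcon => hwb fun k => by
            have := hcon k
            rw [Pi.sub_apply] at this
            exact ⟨by linarith [this.1], by linarith [this.2]⟩)
          refine this.trans (le_of_eq (Finset.sum_congr rfl fun k _ => ?_))
          rw [Pi.sub_apply]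
          ring
      have e2 : {T : Set (Fin d → ℝ) | seen D y T ∈ A} =
          {T | {u | u + v ∈ T} ∈ {T | seen D (y - v) T ∈ A}} := by
        ext T
        have e3 : seen D (y - v) {u | u + v ∈ T} = seen D y T := by
          ext u
          simp only [seen, Set.mem_ofPred_eq]
          rw [show u + (y - v) + v = u + y by abel]
        simp only [Set.mem_ofPred_eq, e3]
      rw [e1, e2, gibbs_shift, gibbs_eq a z hWt hDm hA (y - v)]
      refine ENNReal.ofReal_toReal ?_
      -- the probability is finite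
      have hX0 : Xi volume (cl d (2 * a)) z W ≠ 0 :=
        (lt_of_lt_of_le zero_lt_one (one_le_Xi volume (cl d (2 * a)) z W)).ne'
      unfold pE
      refine ENNReal.div_ne_top (ne_top_of_le_ne_top (Xi_ne_top volume (cl d (2 * a)) z hWt) ?_) hX0
      rw [← Ex_one]
      refine Ex_mono volume (cl d (2 * a)) z fun n x => ?_
      exact Set.indicator_le_self' (fun _ _ => zero_le) _
    rw [h5]
    simp only [h7]
    exact h3
  have stat : ∀ (Ω : Type) [MeasurableSpace Ω] (P : Measure Ω) [IsProbabilityMeasure P]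
      (S : Ω → Set (Fin d → ℝ)), PointProcess S →
      IsGibbs P d a (z : ℝ) S → IsStationary P S →
      ∀ (R : ℝ) (D : Set (Fin d → ℝ)), IsWindow d a R (Real.exp (ε / 100 * d)) D →
      ∀ A : Set (Set (Fin d → ℝ)), Event A →
        |(P {ω | S ω ∩ D ∈ A}).toReal - poisson d ρ D A| ≤ θ := by
    intro Ω _ P _ S hS hG hst R D hD A hA
    obtain ⟨L₀, hL0, h1⟩ := main R
    obtain ⟨Bad, hB1, hB2, hB3⟩ := h1 L₀ le_rfl Ω P S hS hG 0 D hD
    have hex : ∃ y ∈ box d 0 L₀, y ∉ Bad := by
      by_contra hcon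
      push Not at hcon
      have h2 : cube d L₀ ⊆ Bad := fun y hy => hcon y fun k => by simpa using hy k
      have h3 := (measure_mono h2).trans hB2
      rw [cube_vol d hL0.le] at h3
      have hLd : 0 < L₀ ^ d := by positivity
      rw [ENNReal.ofReal_le_ofReal_iff (by positivity)] at h3
      nlinarith
    obtain ⟨y, hy, hyB⟩ := hex
    have h2 := hB3 y hy hyB A hA
    rw [hst D R hD.1 hD.2.1 A hA y] at h2
    have h3 : ∀ T : Set (Fin d → ℝ), seen D 0 T = T ∩ D := by
      intro T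
      ext u
      simp only [seen, Set.mem_ofPred_eq, add_zero, Set.mem_inter_iff]
      exact and_comm
    simp only [h3] at h2
    exact h2
  refine ⟨fun R => ?_, stat, ?_⟩
  · obtain ⟨L₀, -, h1⟩ := main R
    exact ⟨L₀, h1⟩
  · intro Ω Ω' _ _ P P' _ _ S S' hS hS' hG hG' hst hst' R D hD A hA
    have h1 := abs_le.1 (stat Ω P S hS hG hst R D hD A hA)
    have h2 := abs_le.1 (stat Ω' P' S' hS' hG' hst' R D hD A hA)
    rw [abs_le]
    exact ⟨by linarith [h1.1, h2.2], by linarith [h1.2, h2.1]⟩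

end Pool.Agent.Results.MP_09cbbd_mp.NearUniqueness
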