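import Pool.Agent.U279.KT.Final
import Pool.Agent.U279.KT.Local

/-!
# Hard spheres in high dimension have no positional order, not even locally, up to packing density
# `(log (2/√3) - ε) d 2^{-d}`, for all boundary conditions

Let `B` be the volume of the ball of radius `2a` in `ℝ^d`. For every `ε > 0` and all large `d`, for
all densities with `ρ B ≤ (log (2/√3) - ε) d`, all large cubes `[0, L]^d`, all numbers `N` of
spheres of radius `a` with `N / L^d` in a fixed compact interval of such densities, and all boundary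
conditions, the canonical Gibbs measure has the following properties.

* Every linear statistic `∑ ψ (x_i)`, `|ψ| ≤ 1`, has at most the exponential moments of `N`
  independent uniform points, up to the factor `exp (N exp (-ε d / 6) / 8)`.
* The density profile is flat: `𝔼 (1/N) ∑ φ (x_i)` is the mean of `φ`, up to `exp (-ε d / 12)`.
* If the cube is cut in `m^d` cells, then up to an error `δ N` with `δ ≥ exp (-ε d / 12)`, summed
  over the cells, the empirical measures of the centres in the cells integrate all functions of a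
  dictionary of `k` functions (the function may be chosen in each cell after the configuration is
  seen) as the Lebesgue measure does; the probability of the contrary is at most
  `(2 k)^(m^d) exp (- δ² N / 8)`. The cells may contain a bounded number of spheres.
* There are no Bragg peaks, even if the wave vector is chosen separately in each of the cells.

The upper bound for the weighted partition functions is a weighted form of the method of Kleitman
and Winston; it is compared with the lower bound for the partition function of an inner cube.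
-/

set_option autoImplicit false
open MeasureTheory Filter Topology Set

namespace Pool.Agent.Results.MP_09cbbd_mp.NoPositionalOrder

/-- The volume of the ball of radius `r` in `ℝ^d`. -/
noncomputable def ballVolume (d : ℕ) (r : ℝ) : ℝ :=
  (volume {x : Fin d → ℝ | ∑ k, x k ^ 2 < r ^ 2}).toReal

/-- The configurations of the centres `x_i` of `N` non-overlapping spheres of radius `a` in `ℝ^d`
with all centres in the cube `[w, L - w]^d`. -/
def configurations (d : ℕ) (a w L : ℝ) (N : ℕ) : Set (Fin N → Fin d → ℝ) :=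
  {x | (∀ i k, x i k ∈ Set.Icc w (L - w)) ∧
    ∀ i j, i ≠ j → 2 * a ≤ √(∑ k, (x i k - x j k) ^ 2)}

/-- `C` is the set of admissible configurations for some boundary condition: it is measurable, it
consists of configurations of the cube `[0, L]^d`, and it contains all configurations of the cube
`[2a, L - 2a]^d`, which are not influenced by the boundary (free boundary conditions, walls, spheres
frozen in any way outside of the cube, periodic boundary conditions, ...). -/
structure IsAdmissible (d : ℕ) (a L : ℝ) (N : ℕ) (C : Set (Fin N → Fin d → ℝ)) : Prop where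
  measurable : MeasurableSet C
  inner : configurations d a (2 * a) L N ⊆ C
  outer : C ⊆ configurations d a 0 L N

/-- The canonical Gibbs measure: the uniform distribution in the admissible configurations. -/
noncomputable def gibbs {N d : ℕ} (C : Set (Fin N → Fin d → ℝ)) : Measure (Fin N → Fin d → ℝ) :=
  (volume C)⁻¹ • volume.restrict C

/-- The mean of a function over the cube `[0, L]^d`. -/
noncomputable def mean (d : ℕ) (L : ℝ) (φ : (Fin d → ℝ) → ℝ) : ℝ :=
  (∫ y in {y : Fin d → ℝ | ∀ k, y k ∈ Set.Icc (0 : ℝ) L}, φ y) / L ^ d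

/-- The cells of side `L / m` of the cube. -/
def cell {d m : ℕ} (L : ℝ) (q : Fin d → Fin m) : Set (Fin d → ℝ) :=
  {y | ∀ k, (q k : ℕ) * (L / m) ≤ y k ∧ y k < ((q k : ℕ) + 1) * (L / m)}

/-- The sum of `f` over the centres in the cell `q`. -/
noncomputable def cellSum {d m N : ℕ} (L : ℝ) (q : Fin d → Fin m) (f : (Fin d → ℝ) → ℝ)
    (x : Fin N → Fin d → ℝ) : ℝ :=
  ∑ i, (cell L q).indicator f (x i)

/-- The amplitude `|∑ exp (i κ·x_j)|` (sum over the centres `x_j` in the cell `q`) of the plane wave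
with wave vector `κ`. -/
noncomputable def amplitude {d m N : ℕ} (L : ℝ) (q : Fin d → Fin m) (κ : Fin d → ℝ)
    (x : Fin N → Fin d → ℝ) : ℝ :=
  ‖∑ i, (cell L q).indicator
    (fun y => Complex.exp (Complex.I * ((∑ j, κ j * y j : ℝ) : ℂ))) (x i)‖

lemma config_eq (d : ℕ) {a L : ℝ} (ha : 0 < a) (N : ℕ) :
    configurations d a 0 L N = K4H61.HS.config d (2 * a) L N := by
  ext x
  unfold configurations K4H61.HS.config
  simp only [Set.mem_ofPred_eq, sub_zero]
  refine and_congr Iff.rfl (forall_congr' fun i => forall_congr' fun j => forall_congr' fun _ => ?_)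
  rw [Real.le_sqrt (by positivity) (Finset.sum_nonneg fun _ _ => sq_nonneg _)]

lemma inner_eq (d : ℕ) {a L : ℝ} (ha : 0 < a) (N : ℕ) :
    configurations d a (2 * a) L N = U279.KT.inner d (2 * a) L N := by
  ext x
  have h1 : x ∈ configurations d a 0 L N ↔ x ∈ K4H61.HS.config d (2 * a) L N := by
    rw [config_eq d ha]
  unfold U279.KT.inner
  unfold configurations at h1 ⊢
  simp only [Set.mem_ofPred_eq, sub_zero] at h1 ⊢
  rw [← h1]
  constructor
  · rintro ⟨h2, h3⟩
    refine ⟨⟨fun i k => ?_, h3⟩, h2⟩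
    have := h2 i k
    exact ⟨by linarith [this.1], by linarith [this.2]⟩
  · rintro ⟨⟨_, h3⟩, h2⟩
    exact ⟨h2, h3⟩

lemma cell_eq {d m : ℕ} (L : ℝ) (q : Fin d → Fin m) : cell L q = U279.KT.pcell (L / m) q := by
  ext y
  unfold cell U279.KT.pcell
  rw [Set.mem_univ_pi]
  simp only [Set.mem_ofPred_eq, Set.mem_Ico]
  refine forall_congr' fun k => ?_
  rw [add_mul, one_mul]

lemma amplitude_eq {d m N : ℕ} (L : ℝ) (q : Fin d → Fin m) (κ : Fin d → ℝ)
    (x : Fin N → Fin d → ℝ) : amplitude L q κ x = ‖U279.KT.amp (L / m) q κ x‖ := by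
  unfold amplitude U279.KT.amp
  rw [cell_eq]
  congr 1
  refine Finset.sum_congr rfl fun i _ => ?_
  congr 1
  funext y
  unfold U279.KT.wave
  rw [mul_comm]

/-- The canonical Gibbs measures of hard spheres in high dimension, at densities `ρ` with
`ρ vol B(2a) ≤ (log (2/√3) - ε) d`, have no positional order. -/
theorem result (ε : ℝ) (hε : 0 < ε) : ∃ d₀ : ℕ, ∀ d : ℕ, d₀ ≤ d → ∀ a : ℝ, 0 < a →
    ∀ ρ₁ ρ₂ : ℝ, 0 < ρ₁ → ρ₂ * ballVolume d (2 * a) ≤ (Real.log (2 / √3) - ε) * d →
    ∃ L₀ : ℝ, ∀ L : ℝ, L₀ ≤ L → ∀ N : ℕ, ρ₁ * L ^ d ≤ N → N ≤ ρ₂ * L ^ d →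
    ∀ C : Set (Fin N → Fin d → ℝ), IsAdmissible d a L N C →
      -- the Gibbs measure is well defined
      (0 < volume C ∧ volume C < ⊤) ∧
      -- exponential moments
      (∀ ψ : (Fin d → ℝ) → ℝ, Measurable ψ → (∀ y, |ψ y| ≤ 1) →
        ∫ x, Real.exp (∑ i, ψ (x i)) ∂(gibbs C) ≤
          mean d L (fun y => Real.exp (ψ y)) ^ N *
            Real.exp (Real.exp (-(ε / 6 * d)) / 8 * N)) ∧
      -- the density profile is flat
      (∀ φ : (Fin d → ℝ) → ℝ, Measurable φ → (∀ y, |φ y| ≤ 1) →
        |(∫ x, ∑ i, φ (x i) ∂(gibbs C)) / N - mean d L φ| ≤ Real.exp (-(ε / 12 * d))) ∧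
      -- the empirical measures of the cells are flat, for a dictionary of `k` test functions
      (∀ (m k : ℕ) (f : Fin k → (Fin d → Fin m) → (Fin d → ℝ) → ℝ) (δ : ℝ), 1 ≤ m →
        (∀ u q, Measurable (f u q)) → (∀ u q y, |f u q y| ≤ 1) →
        Real.exp (-(ε / 12 * d)) ≤ δ → δ ≤ 1 →
        gibbs C {x | ∃ u : (Fin d → Fin m) → Fin k,
          δ * N ≤ ∑ q, |cellSum L q (f (u q) q) x - N / L ^ d * ∫ y in cell L q, f (u q) q y|} ≤
          ENNReal.ofReal ((2 * k) ^ (m ^ d) * Real.exp (-(δ ^ 2 * N / 8)))) ∧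
      -- no Bragg peaks, with wave vectors which may depend on the cell
      (∀ (m : ℕ) (K δ : ℝ), 1 ≤ m → 0 ≤ K → 2 * Real.exp (-(ε / 12 * d)) ≤ δ → δ ≤ 1 →
        gibbs C {x | ∃ κ : (Fin d → Fin m) → Fin d → ℝ,
          (∀ q, (∀ j, |κ q j| ≤ K) ∧ ∃ j, 64 / (δ * (L / m)) ≤ |κ q j|) ∧
          δ * N ≤ ∑ q, amplitude L q (κ q) x} ≤
          ENNReal.ofReal ((4 * (32 * d * K * (L / m) / δ + 3) ^ d) ^ (m ^ d) *
            Real.exp (-(δ ^ 2 * N / 32)))) := by
  obtain ⟨d₀, hd₀⟩ := eventually_atTop.1 ((U279.KT.good_uniform ε hε).and (eventually_ge_atTop 1))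
  refine ⟨d₀, fun d hd a ha ρ₁ ρ₂ hρ₁ hρ₂ => ?_⟩
  obtain ⟨hgood, hd1⟩ := hd₀ d hd
  obtain ⟨L₀, hL₀, hmain⟩ := hgood (2 * a) (by positivity) ρ₁ ρ₂ hρ₁ hρ₂
  refine ⟨L₀, fun L hL N hN1 hN2 C hC => ?_⟩
  have hL0 : 0 < L := by linarith
  obtain ⟨hN, hm⟩ := hmain L hL N hN1 hN2
  obtain ⟨c1, c2, hg⟩ := hm C (by rw [← inner_eq d ha]; exact hC.inner)
    (by rw [← config_eq d ha]; exact hC.outer)
  have hgibbs : gibbs C = U279.KT.gibbs C := rfl
  rw [hgibbs]
  have he : Real.exp (-(ε / 12 * (d : ℝ))) ^ 2 = Real.exp (-(ε / 6 * (d : ℝ))) := by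
    rw [← Real.exp_nat_mul]
    congr 1
    push_cast
    ring
  have he0 := Real.exp_pos (-(ε / 12 * (d : ℝ)))
  refine ⟨⟨c1, c2⟩, fun ψ hψ hψ1 => hg.mom ψ hψ hψ1, fun φ hφ hφ1 => ?_, ?_, ?_⟩
  · refine U279.KT.expect_abs hL0 hN hg hφ hφ1 he0 ?_ ?_
    · refine Real.exp_le_one_iff.2 ?_
      have : 0 ≤ ε / 12 * (d : ℝ) := by positivity
      linarith
    · rw [he]
      linarith
  · intro m k f δ hm1 hf hf1 hδ hδ1
    have h1 := U279.KT.patterns hL0 hg hm1 k f hf hf1 (δ := δ) (by linarith) hδ1 (by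
      have := pow_le_pow_left₀ he0.le hδ 2
      rw [he] at this
      linarith)
    simp only [cellSum, cell_eq]
    exact h1
  · intro m K δ hm1 hK hδ hδ1
    have hδ0 : 0 < δ := by linarith
    have hm0 : (0 : ℝ) < m := by exact_mod_cast hm1
    have h1 := U279.KT.bragg hd1 hL0 hg hm1 K δ hδ0 hδ1 (by
      have := pow_le_pow_left₀ (by positivity) hδ 2
      rw [mul_pow, he] at this
      linarith) ⌈16 * d * (L / m) * K / δ⌉₊ (Nat.le_ceil _)
    simp only [amplitude_eq]
    have h2 : 64 / (δ * (L / m)) = 64 * m / (δ * L) := by field_simp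
    rw [h2]
    refine h1.trans (ENNReal.ofReal_le_ofReal ?_)
    refine mul_le_mul_of_nonneg_right ?_ (Real.exp_pos _).le
    have h3 : (⌈16 * d * (L / m) * K / δ⌉₊ : ℝ) ≤ 16 * d * (L / m) * K / δ + 1 :=
      (Nat.ceil_lt_add_one (by positivity)).le
    have h4 : 32 * d * K * (L / m) / δ = 2 * (16 * d * (L / m) * K / δ) := by ring
    rw [mul_comm (4 : ℝ), h4]
    refine pow_le_pow_left₀ (by positivity) (mul_le_mul_of_nonneg_right ?_ (by norm_num)) _
    exact pow_le_pow_left₀ (by positivity) (by linarith) _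

end Pool.Agent.Results.MP_09cbbd_mp.NoPositionalOrder
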